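import Pool.Agent.L0h86.JR.Stm
import Pool.Agent.N958.GB.BOX
import Pool.Agent.N19.GB.Parts

/-!
# Project JR, BOXR: the joint law in a box (after `Pool/Agent/N958/GB/BOX` and
`Pool/Agent/L0h2/P/BX3`)
-/

set_option autoImplicit false
set_option linter.unusedSectionVars false
set_option linter.unusedVariables false
set_option maxHeartbeats 4000000

open scoped Classical

namespace Pool.Agent.L0h92.JR

open Finset
open Pool.Agent.Y703.CQ (nr sg)
open Pool.Agent.N973.ND (uu nr_rec nr_self)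
open Pool.Agent.N916.GB (Po sy Vt Gd Gv ps sx pt eta HB Nd)
open Pool.Agent.N958.GB (Lb lb LN uu_eq mem_Vt Vt_sub Gd_iff nd_iff rr rr_inj rr_im NR sgm
  sy_ne two_tuples HB_sub ud wd sum_uu z2 rec_NR)
open Pool.Agent.L0h86.JR

/-- the facts on a tuple -/
structure TQ {t : ℕ} {ι : Type} [Fintype ι] [LinearOrder ι] (W : Fin t → Finset ℕ) (τ : ι → ℕ)
    (p : ι → ℕ) : Prop where
  inj : Function.Injective p
  po : ∀ i, Po (p i)
  nm : ∀ l i, p i ∉ W l
  ty : ∀ i, p i % 4 = τ i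

section
variable {t n : ℕ} {s : Fin t → Sr} {ι : Type} [Fintype ι] [LinearOrder ι]
  {W : Fin t → Finset ℕ} {τ : ι → ℕ} {C : ι → Finset ℕ}

/-- the joint label -/
abbrev LbJ {t : ℕ} (W : Fin t → Finset ℕ) : Type := ∀ l, Lb (W l)

/-- the joint label of a prime -/
noncomputable def lbj {t : ℕ} (W : Fin t → Finset ℕ) (q : ℕ) : LbJ W := fun l => lb (W l) q

/-- the small indices -/
abbrev UW (s : Fin t → Sr) (W : Fin t → Finset ℕ) (l : Fin t) : Type :=
  (Vt (s l).t (W l) : Finset ℕ)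

/-- the parametrization of a system -/
noncomputable abbrev rw' (s : Fin t → Sr) (W : Fin t → Finset ℕ) (p : ι → ℕ) (l : Fin t) :
    UW s W l ⊕ ι → ℕ := rr (s l).t (W l) p

/-- the relation of the rows -/
noncomputable def wR (s : Fin t → Sr) (W : Fin t → Finset ℕ) (p : ι → ℕ) (l : Fin t) :
    UW s W l ⊕ ι → ZMod 2 := wd (s l).r (rw' s W p l)

/-- the classes modulo four -/
noncomputable def uR (s : Fin t → Sr) (W : Fin t → Finset ℕ) (p : ι → ℕ) (l : Fin t) :
    UW s W l ⊕ ι → ZMod 2 := ud (s l).s (rw' s W p l)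

/-- the matrix -/
noncomputable def nR' (s : Fin t → Sr) (W : Fin t → Finset ℕ) (p : ι → ℕ) (l : Fin t) :
    UW s W l ⊕ ι → UW s W l ⊕ ι → ZMod 2 := NR (s l).r (s l).s (rw' s W p l)

theorem uR_inr {p : ι → ℕ} (h : TQ W τ p) (l : Fin t) (k : ι) :
    uR s W p l (Sum.inr k) = if τ k = 3 then 1 else 0 := by
  rw [← uu_eq (h.ty k)]
  exact if_neg (h.po k).2

theorem HL_tuple (hW : ∀ l, ∀ v ∈ W l, Po v)
    (hts : ∀ l, (s l).t = false → (s l).s = 0)
    (htr : ∀ l, (s l).t = true → (s l).r ≠ 0 ∨ (s l).s ≠ 0)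
    (hpar : ∀ l, (((W l).filter fun p => p % 4 = 3).card +
      (univ.filter fun i => τ i = 3).card + (if (s l).s = 0 then 0 else 1)) % 2 = 1)
    {p : ι → ℕ} (h : TQ W τ p) (hN : ∀ l, LN (W l) τ (fun i => lb (W l) (p i))) :
    HL (U := UW s W) (J := ι) (wR s W p) (uR s W p) (nR' s W p) := by
  have h2S : ∀ l, 2 ∉ W l := fun l hh => (hW l 2 hh).2 rfl
  have ht : ∀ l, ∀ v ∈ Vt (s l).t (W l), v = 2 → (s l).t = true := by
    intro l v hv hv2
    rcases mem_Vt.1 hv with hh | hh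
    · exact hh.1
    · exact absurd (hv2 ▸ hh) (h2S l)
  have hrp : ∀ l i, (rw' s W p l i).Prime := by
    rintro l (v | k)
    · rcases mem_Vt.1 v.2 with hh | hh
      · show (v : ℕ).Prime
        rw [hh.2]
        exact Nat.prime_two
      · exact (hW l _ hh).1
    · exact (h.po k).1
  have hrinj : ∀ l, Function.Injective (rw' s W p l) := fun l =>
    rr_inj (s l).t h.inj (h.nm l) fun i => (h.po i).2
  refine ⟨fun l k => if_neg (h.po k).2, fun l => ?_,
    fun l i j hij => rec_NR (s l).r (s l).s (hrinj l) (hrp l) i j hij, fun l v hv => ?_,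
    fun l b s' hbs => ?_, fun l l' k => by rw [uR_inr h, uR_inr h], fun l l' k j hkj => ?_⟩
  · rw [Fintype.sum_sum_type]
    have a1 : ∑ i, uR s W p l (Sum.inr i : UW s W l ⊕ ι) =
        (((univ.filter fun i => τ i = 3).card : ℕ) : ZMod 2) := by
      rw [card_filter]
      push_cast
      exact sum_congr rfl fun i _ => uR_inr h l i
    have a2 : ∑ v : UW s W l, uR s W p l (Sum.inl v : UW s W l ⊕ ι) =
        ∑ x ∈ Vt (s l).t (W l), if x = 2 then (s l).s else uu x := by
      rw [← Finset.sum_coe_sort (Vt (s l).t (W l))]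
      rfl
    have a3 : ∑ x ∈ W l, (if x = 2 then (s l).s else uu x) = ∑ x ∈ W l, uu x :=
      sum_congr rfl fun x hx => if_neg (hW l x hx).2
    have a4 : ∑ x ∈ Vt (s l).t (W l), (if x = 2 then (s l).s else uu x) =
        (s l).s + ∑ x ∈ W l, uu x := by
      cases htl : (s l).t with
      | true =>
        show ∑ x ∈ insert 2 (W l), (if x = 2 then (s l).s else uu x) = (s l).s + ∑ x ∈ W l, uu x
        rw [sum_insert (h2S l), a3, if_pos rfl]
      | false =>
        show ∑ x ∈ W l, (if x = 2 then (s l).s else uu x) = (s l).s + ∑ x ∈ W l, uu x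
        rw [a3, hts l htl, zero_add]
    have a5 : (s l).s = ((if (s l).s = 0 then 0 else 1 : ℕ) : ZMod 2) := by
      rcases z2 (s l).s with hh | hh <;> rw [hh] <;> simp
    rw [a1, a2, a4, sum_uu]
    have a6 : (s l).s + ((((W l).filter fun p => p % 4 = 3).card : ℕ) : ZMod 2) +
        (((univ.filter fun i => τ i = 3).card : ℕ) : ZMod 2) =
        ((((W l).filter fun p => p % 4 = 3).card + (univ.filter fun i => τ i = 3).card +
          (if (s l).s = 0 then 0 else 1) : ℕ) : ZMod 2) := by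
      rw [Nat.cast_add, Nat.cast_add, ← a5]
      ring
    rw [a6, ← ZMod.natCast_mod, hpar l]
    rfl
  · have b1 : ∀ v' : UW s W l, wR s W p l (Sum.inl v') = 0 → (v' : ℕ) = 2 ∧ (s l).r = 0 := by
      intro v' hv'
      have hv'' : (if (v' : ℕ) = 2 then (s l).r else 1) = 0 := hv'
      by_cases hh : (v' : ℕ) = 2
      · rw [if_pos hh] at hv''
        exact ⟨hh, hv''⟩
      · rw [if_neg hh] at hv''
        exact absurd hv'' (by decide)
    obtain ⟨b2, b3⟩ := b1 v hv
    refine ⟨?_, fun v' hv' => Subtype.ext (b2.trans (b1 v' hv').1.symm)⟩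
    have b4 : (s l).s = 1 := by
      rcases z2 (s l).s with hh | hh
      · exact absurd (htr l (ht l v v.2 b2)) (by
          rintro (h' | h')
          · exact h' b3
          · exact h' hh)
      · exact hh
    show (if (v : ℕ) = 2 then (s l).s else uu v) = 1
    rw [if_pos b2, b4]
  · set w : ℕ → ZMod 2 := fun n => if hh : n ∈ Vt (s l).t (W l) then b ⟨n, hh⟩ else 0 with hw
    have hw1 : ∀ v : UW s W l, w v = b v := fun v => by
      rw [hw]
      exact dif_pos v.2
    have hw2 : ∀ n, n ∉ Vt (s l).t (W l) → w n = 0 := fun n hn => by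
      rw [hw]
      exact dif_neg hn
    obtain ⟨k, hk⟩ := hN l w s' (by
      rcases hbs with ⟨v, hv⟩ | hh
      · exact Or.inl ⟨v, Vt_sub (s l).t (W l) v.2, by rw [hw1]; exact hv⟩
      · exact Or.inr hh)
    refine ⟨k, ?_⟩
    rw [uR_inr h]
    intro h0
    apply hk
    refine Eq.trans ?_ h0
    congr 1
    have c1 : ∑ v : (insert 2 (W l) : Finset ℕ), w v * (lb (W l) (p k)).1 v =
        ∑ v ∈ insert 2 (W l), w v * nr (p k) v := by
      rw [← Finset.sum_coe_sort (insert 2 (W l))]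
      rfl
    have c2 : ∑ v ∈ Vt (s l).t (W l), w v * nr (p k) v =
        ∑ v ∈ insert 2 (W l), w v * nr (p k) v :=
      sum_subset (Vt_sub (s l).t (W l)) fun x _ hx => by rw [hw2 x hx, zero_mul]
    have c3 : ∑ v : UW s W l, b v * nR' s W p l (Sum.inl v) (Sum.inr k) =
        ∑ v ∈ Vt (s l).t (W l), w v * nr (p k) v := by
      rw [← Finset.sum_coe_sort (Vt (s l).t (W l))]
      refine sum_congr rfl fun v _ => ?_
      rw [hw1]
      congr 1
      exact sy_ne (s l).r (s l).s (h.po k).2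
    exact (c1.trans c2.symm).trans c3.symm
  · show sy (s l).r (s l).s (p k) (p j) = sy (s l').r (s l').s (p k) (p j)
    rw [sy_ne _ _ (h.po j).2, sy_ne _ _ (h.po j).2]

end

section
variable {t n : ℕ} {s : Fin t → Sr} {ι : Type} [Fintype ι] [LinearOrder ι] {S₀ : Finset ℕ}
  {τ : ι → ℕ} {C : ι → Finset ℕ}

/-- the small odd primes of a system -/
abbrev Ws (s : Fin t → Sr) (S₀ : Finset ℕ) (l : Fin t) : Finset ℕ := S₀ ∪ (s l).W

theorem Vt_union (t : Bool) (S W : Finset ℕ) : Vt t (S ∪ W) = S ∪ Vt t W := by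
  ext x
  simp only [mem_Vt, mem_union]
  tauto

theorem DD_eq (hS₀ : ∀ v ∈ S₀, Po v) (hdis : ∀ l, Disjoint S₀ (s l).W) {p : ι → ℕ} (l : Fin t)
    (k : ι) : DD (nR' s (Ws s S₀) p) l k = ∑ v ∈ S₀, nr v (p k) + dgR (s l) (p k) := by
  have h1 : DD (nR' s (Ws s S₀) p) l k =
      ∑ v ∈ Vt (s l).t (S₀ ∪ (s l).W), sy (s l).r (s l).s (p k) v := by
    rw [← Finset.sum_coe_sort (Vt (s l).t (S₀ ∪ (s l).W))]
    rfl
  rw [h1, Vt_union, sum_union]
  · unfold dgR
    congr 1
    exact sum_congr rfl fun v hv => sy_ne _ _ (hS₀ v hv).2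
  · rw [Finset.disjoint_left]
    intro x hx hx2
    rcases mem_Vt.1 hx2 with h | h
    · exact (hS₀ x hx).2 h.2
    · exact Finset.disjoint_left.1 (hdis l) hx h

theorem HT_tuple (x : Fin t → Fin n → ZMod 2) (JR : Fin n → Finset ι) {M V : ℕ}
    (hS₀ : ∀ v ∈ S₀, Po v) (hdis : ∀ l, Disjoint S₀ (s l).W)
    (h3 : M * ∑ l, ((S₀ ∪ (s l).W).card + 1) + V ≤ (univ.filter fun i => τ i = 3).card)
    (hJ : ∀ r, M * ∑ l, ((S₀ ∪ (s l).W).card + 1) + V ≤ (JR r).card)
    (hsep : ∀ l l', l ≠ l' → ∃ r, x l r ≠ x l' r)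
    {p : ι → ℕ} (h : TQ (Ws s S₀) τ p)
    (hty : ∀ r, ∀ i ∈ JR r, τ i ≠ 3 ∧ ∀ l, dgR (s l) (p i) = x l r) :
    HT (U := UW s (Ws s S₀)) (J := ι) (uR s (Ws s S₀) p) (nR' s (Ws s S₀) p) x JR
      (M * ∑ l, Fintype.card (UW s (Ws s S₀) l) + V) := by
  have hc : M * ∑ l, Fintype.card (UW s (Ws s S₀) l) + V ≤
      M * ∑ l, ((S₀ ∪ (s l).W).card + 1) + V := by
    refine Nat.add_le_add_right (Nat.mul_le_mul_left _ (sum_le_sum fun l _ => ?_)) _
    rw [Fintype.card_coe]
    exact (card_le_card (Vt_sub (s l).t _)).trans (card_insert_le _ _)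
  refine ⟨fun l => ?_, fun r => hc.trans (hJ r), fun r k hk l l' => ⟨?_, ?_⟩, hsep⟩
  · have d2 : (univ.filter fun k : ι => uR s (Ws s S₀) p l (Sum.inr k) = 1) =
        univ.filter fun i => τ i = 3 := by
      refine filter_congr fun k _ => ?_
      rw [uR_inr h]
      by_cases hh : τ k = 3
      · rw [if_pos hh]
        exact ⟨fun _ => hh, fun _ => rfl⟩
      · rw [if_neg hh]
        exact ⟨fun h' => absurd h' (by decide), fun h' => absurd h' hh⟩
    rw [d2]
    exact hc.trans h3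
  · rw [uR_inr h, if_neg (hty r k hk).1]
  · rw [DD_eq hS₀ hdis, DD_eq hS₀ hdis, (hty r k hk).2 l, (hty r k hk).2 l']
    have : ∀ a b c : ZMod 2, a + b + (a + c) = b + c := by decide
    exact this _ _ _

/-- the number of the labels -/
theorem card_LbJ (W : Fin t → Finset ℕ) (hW : ∀ l, 2 ∉ W l) :
    Fintype.card (LbJ W) = 2 ^ (∑ l, (2 * (W l).card + 1)) := by
  rw [Fintype.card_pi, ← prod_pow_eq_pow_sum]
  refine prod_congr rfl fun l _ => ?_
  rw [Fintype.card_prod, Fintype.card_fun, Fintype.card_fun, ZMod.card,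
    Fintype.card_coe, Fintype.card_coe, ← pow_add, card_insert_of_notMem (hW l)]
  congr 1
  ring

theorem ndR_iff {p : ι → ℕ} (hτ : ∀ i, p i % 4 = τ i) :
    NdR s S₀ (univ.image p) ↔
      ∀ l, LN (Ws s S₀ l) τ (fun i => lbj (Ws s S₀) (p i) l) := by
  unfold NdR
  refine forall_congr' fun l => ?_
  exact nd_iff hτ

/-- the pattern of a tuple -/
theorem patR_iff {p : ι → ℕ} (h : TQ (Ws s S₀) τ p) (β : Fin t → Bool) :
    PatR s β (S₀ ∪ univ.image p) ↔
      ∀ l, (Gv (nR' s (Ws s S₀) p l) ↔ β l = true) := by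
  unfold PatR GdR
  refine forall_congr' fun l => ?_
  have h1 : S₀ ∪ univ.image p ∪ (s l).W = (S₀ ∪ (s l).W) ∪ univ.image p := by
    rw [union_right_comm]
  rw [h1, Gd_iff (s l).t (s l).r (s l).s
    (rr_inj (s l).t h.inj (h.nm l) fun i => (h.po i).2) (rr_im (s l).t)]
  rfl

/-- the part with given labels -/
theorem labR {β : ι → LbJ (Ws s S₀)} {ε : ℝ} {X : ι → ℕ} {κ : ℝ} {pat : Fin t → Bool}
    (hκ : 0 ≤ κ) (hCX : ∀ i, (C i).card ≤ X i) (hHB : HB C X κ)
    (hT : ∀ p ∈ Fintype.piFinset C, TQ (Ws s S₀) τ p)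
    (hL : ∀ p ∈ Fintype.piFinset C, ∀ i, lbj (Ws s S₀) (p i) = β i)
    (hLA : ∀ p ∈ Fintype.piFinset C,
      |((univ.filter fun σ : ps ι → ZMod 2 => ∀ l, (Gv (pt (nR' s (Ws s S₀) p l) (sx σ)) ↔
        pat l = true)).card : ℝ) / 2 ^ (ps ι).card - amR pat| ≤ ε) :
    |(((Fintype.piFinset C).filter fun p => PatR s pat (S₀ ∪ univ.image p)).card : ℝ) -
        amR pat * ((Fintype.piFinset C).card : ℝ)| ≤
      ε * ((Fintype.piFinset C).card : ℝ) + 2 ^ (ps ι).card * (κ * ∏ j, (X j : ℝ)) := by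
  set R : ℝ := 2 ^ (ps ι).card * (κ * ∏ j, (X j : ℝ)) with hR
  have hR0 : 0 ≤ R := mul_nonneg (by positivity)
    (mul_nonneg hκ (Finset.prod_nonneg fun j _ => by positivity))
  by_cases hemp : Fintype.piFinset C = ∅
  · rw [hemp]
    simpa using hR0
  obtain ⟨p₀, hp₀⟩ := Finset.nonempty_iff_ne_empty.2 hemp
  have h2 := hLA p₀ hp₀
  set Q : (ps ι → ZMod 2) → Prop := fun σ =>
    ∀ l, (Gv (pt (nR' s (Ws s S₀) p₀ l) (sx (σ + sgm p₀))) ↔ pat l = true) with hQ
  have h3 := Pool.Agent.N19.GB.t_EQ ι C X κ hκ hCX hHB Q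
  have h4 : ((Fintype.piFinset C).filter fun p => PatR s pat (S₀ ∪ univ.image p)) =
      ((Fintype.piFinset C).filter fun p => Q fun e => nr (p e.1.1) (p e.1.2)) := by
    refine Finset.filter_congr fun p hp => ?_
    rw [patR_iff (hT p hp)]
    refine forall_congr' fun l => ?_
    have a0 := two_tuples (S₀ := Ws s S₀ l) (s l).t (s l).r (s l).s (hT p hp).inj (hT p₀ hp₀).inj
      (hT p hp).po (hT p₀ hp₀).po (hT p hp).ty (hT p₀ hp₀).ty fun i => by
        have a1 := congrFun (hL p hp i) l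
        have a2 := congrFun (hL p₀ hp₀ i) l
        exact a1.trans a2.symm
    show (Gv (NR (s l).r (s l).s (rr (s l).t (Ws s S₀ l) p)) ↔ pat l = true) ↔
      (Gv (pt (NR (s l).r (s l).s (rr (s l).t (Ws s S₀ l) p₀)) (sx (sgm p + sgm p₀))) ↔
        pat l = true)
    rw [a0]
  have h5 : (((Fintype.piFinset C).card : ℕ) : ℝ) = ∏ j, ((C j).card : ℝ) := by
    rw [Fintype.card_piFinset]
    push_cast
    rfl
  rw [h4, h5]
  have hQc : (univ.filter Q).card =
      (univ.filter fun σ : ps ι → ZMod 2 =>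
        ∀ l, (Gv (pt (nR' s (Ws s S₀) p₀ l) (sx σ)) ↔ pat l = true)).card := by
    refine card_bij (fun σ _ => σ + sgm p₀) ?_ ?_ ?_
    · intro σ hσ
      rw [mem_filter] at hσ ⊢
      exact ⟨mem_univ _, hσ.2⟩
    · intro σ _ σ' _ h
      exact add_right_cancel h
    · intro σ hσ
      refine ⟨σ - sgm p₀, ?_, sub_add_cancel _ _⟩
      rw [mem_filter] at hσ ⊢
      refine ⟨mem_univ _, ?_⟩
      simp only [hQ, sub_add_cancel]
      exact hσ.2
  have h2' : |((univ.filter Q).card : ℝ) / 2 ^ (ps ι).card - amR pat| ≤ ε := by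
    rw [hQc]
    exact h2
  set n : ℝ := (((Fintype.piFinset C).filter fun p =>
        Q fun e => nr (p e.1.1) (p e.1.2)).card : ℝ) with hn
  set q : ℝ := ((univ.filter Q).card : ℝ) / 2 ^ (ps ι).card with hq
  set P : ℝ := ∏ j, ((C j).card : ℝ) with hP
  have hP0 : 0 ≤ P := Finset.prod_nonneg fun j _ => by positivity
  have h6 : |n - amR pat * P| ≤ |n - q * P| + |q - amR pat| * P := by
    have h7 : n - amR pat * P = (n - q * P) + (q - amR pat) * P := by ring
    have h8 : |(q - amR pat) * P| = |q - amR pat| * P := by rw [abs_mul, abs_of_nonneg hP0]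
    rw [h7, ← h8]
    exact abs_add_le _ _
  have h7 : |q - amR pat| * P ≤ ε * P := mul_le_mul_of_nonneg_right h2' hP0
  have h8 : |n - q * P| ≤ R := by convert h3
  linarith

end

/-- **BOXR**: the joint law in a box. -/
theorem t_BOXR : S_LAT → S_BOXR := by
  intro hLAT t n ε hε
  obtain ⟨M, V, hMV⟩ := hLAT t n ε hε
  refine ⟨M, V, ?_⟩
  intro s ι _ _ τ C X κ S₀ x JR pat hts htr hκ hCX hHB hS₀ hW hdis hC hCd hpar h3 hJ hty hsep
  set R : ℝ := 2 ^ (ps ι).card * (κ * ∏ j, (X j : ℝ)) with hR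
  have hR0 : 0 ≤ R := mul_nonneg (by positivity)
    (mul_nonneg hκ (Finset.prod_nonneg fun j _ => by positivity))
  have hWs : ∀ l, ∀ v ∈ Ws s S₀ l, Po v := by
    intro l v hv
    rcases mem_union.1 hv with h | h
    · exact hS₀ v h
    · exact hW l v h
  have h2S : ∀ l, 2 ∉ Ws s S₀ l := fun l hh => (hWs l 2 hh).2 rfl
  have hT : ∀ p ∈ Fintype.piFinset C, TQ (Ws s S₀) τ p := by
    intro p hp
    rw [Fintype.mem_piFinset] at hp
    refine ⟨fun i j hij => ?_, fun i => (hC i _ (hp i)).1, fun l i h => ?_,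
      fun i => (hC i _ (hp i)).2.2.2⟩
    · by_contra hne
      have h1 := Finset.disjoint_left.1 (hCd i j hne) (hp i)
      rw [hij] at h1
      exact h1 (hp j)
    · rcases mem_union.1 h with h | h
      · exact (hC i _ (hp i)).2.1 h
      · exact (hC i _ (hp i)).2.2.1 l h
  -- the part with given labels
  have h1 : ∀ β : ι → LbJ (Ws s S₀), (∀ l, LN (Ws s S₀ l) τ (fun i => β i l)) →
      |(((Fintype.piFinset C).filter fun p => (fun i => lbj (Ws s S₀) (p i)) = β ∧
          PatR s pat (S₀ ∪ univ.image p)).card : ℝ) -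
        amR pat * (((Fintype.piFinset C).filter fun p =>
          (fun i => lbj (Ws s S₀) (p i)) = β).card : ℝ)| ≤
      ε * (((Fintype.piFinset C).filter fun p =>
        (fun i => lbj (Ws s S₀) (p i)) = β).card : ℝ) + R := by
    intro β hβ
    set C' : ι → Finset ℕ := fun i => (C i).filter fun q => lbj (Ws s S₀) q = β i with hC'
    have hpi : (Fintype.piFinset C).filter (fun p => (fun i => lbj (Ws s S₀) (p i)) = β) =
        Fintype.piFinset C' := by
      ext p
      simp only [Finset.mem_filter, Fintype.mem_piFinset, hC']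
      constructor
      · rintro ⟨h2, h3⟩ i
        exact ⟨h2 i, congrFun h3 i⟩
      · intro h2
        exact ⟨fun i => (h2 i).1, funext fun i => (h2 i).2⟩
    have hsub : ∀ p ∈ Fintype.piFinset C', p ∈ Fintype.piFinset C := by
      intro p hp
      rw [Fintype.mem_piFinset] at hp ⊢
      exact fun i => (mem_filter.1 (hp i)).1
    have hlab : ∀ p ∈ Fintype.piFinset C', ∀ i, lbj (Ws s S₀) (p i) = β i := by
      intro p hp i
      rw [Fintype.mem_piFinset] at hp
      exact (mem_filter.1 (hp i)).2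
    rw [← Finset.filter_filter, hpi]
    refine labR (β := β) hκ
      (fun i => (Finset.card_le_card (Finset.filter_subset _ _)).trans (hCX i))
      (HB_sub hHB fun i q => lbj (Ws s S₀) q = β i) (fun p hp => hT p (hsub p hp)) hlab ?_
    intro p hp
    have hp' := hsub p hp
    refine hMV (UW s (Ws s S₀)) ι (wR s (Ws s S₀) p) (uR s (Ws s S₀) p) (nR' s (Ws s S₀) p) x JR
      (HL_tuple hWs hts htr hpar (hT p hp') ?_)
      (HT_tuple x JR hS₀ hdis h3 hJ hsep (hT p hp') ?_) pat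
    · intro l
      have h6 : (fun i => lb (Ws s S₀ l) (p i)) = fun i => β i l := by
        funext i
        exact congrFun (hlab p hp i) l
      rw [h6]
      exact hβ l
    · intro r i hi
      refine ⟨(hty r i hi).1, fun l => (hty r i hi).2 (p i) ?_ l⟩
      rw [Fintype.mem_piFinset] at hp'
      exact hp' i
  -- sum over the labels
  set LL := univ.filter (fun β : ι → LbJ (Ws s S₀) =>
    ∀ l, LN (Ws s S₀ l) τ (fun i => β i l)) with hLL
  have hfib : ∀ T : (ι → ℕ) → Prop,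
      (((Fintype.piFinset C).filter fun p => NdR s S₀ (univ.image p) ∧ T p).card : ℝ) =
      ∑ β ∈ LL, (((Fintype.piFinset C).filter fun p =>
        (fun i => lbj (Ws s S₀) (p i)) = β ∧ T p).card : ℝ) := by
    intro T
    rw [Finset.card_eq_sum_card_fiberwise (f := fun (p : ι → ℕ) (i : ι) => lbj (Ws s S₀) (p i))
      (t := LL) (by
        intro p hp
        rw [Finset.mem_coe, Finset.mem_filter] at hp
        rw [Finset.mem_coe, hLL, Finset.mem_filter]
        exact ⟨Finset.mem_univ _, (ndR_iff (hT p hp.1).ty).1 hp.2.1⟩)]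
    push_cast
    refine Finset.sum_congr rfl fun β hβ => ?_
    rw [hLL, Finset.mem_filter] at hβ
    congr 2
    ext p
    simp only [Finset.mem_filter]
    constructor
    · rintro ⟨⟨h3, h4, h4'⟩, h5⟩
      exact ⟨h3, h5, h4'⟩
    · rintro ⟨h3, h4, h5⟩
      refine ⟨⟨h3, ?_, h5⟩, h4⟩
      rw [ndR_iff (hT p h3).ty]
      intro l
      have h6 : (fun i => lbj (Ws s S₀) (p i) l) = fun i => β i l := by
        funext i
        exact congrFun (congrFun h4 i) l
      rw [h6]
      exact hβ.2 l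
  have hf1 := hfib fun p => PatR s pat (S₀ ∪ univ.image p)
  have hf2 := hfib fun _ => True
  simp only [and_true] at hf2
  rw [hf1, hf2, Finset.mul_sum, ← Finset.sum_sub_distrib]
  refine (Finset.abs_sum_le_sum_abs _ _).trans ?_
  refine (Finset.sum_le_sum fun β hβ => h1 β (Finset.mem_filter.1 hβ).2).trans ?_
  rw [Finset.sum_add_distrib, ← Finset.mul_sum, Finset.sum_const, nsmul_eq_mul]
  have h5 : ((LL.card : ℕ) : ℝ) ≤
      2 ^ ((∑ l, (2 * (S₀ ∪ (s l).W).card + 1)) * Fintype.card ι) := by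
    have h6 : LL.card ≤ Fintype.card (ι → LbJ (Ws s S₀)) := Finset.card_le_univ _
    rw [Fintype.card_fun, card_LbJ _ h2S, ← pow_mul] at h6
    exact_mod_cast h6
  have h6 := mul_le_mul_of_nonneg_right h5 hR0
  have h7 : (2 : ℝ) ^ ((∑ l, (2 * (S₀ ∪ (s l).W).card + 1)) * Fintype.card ι +
      (ps ι).card) * (κ * ∏ j, (X j : ℝ)) =
      2 ^ ((∑ l, (2 * (S₀ ∪ (s l).W).card + 1)) * Fintype.card ι) * R := by
    rw [hR, pow_add]
    ring
  rw [h7]
  linarith

end Pool.Agent.L0h92.JR
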